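import Pool.Agent.helper11.VQ.Spec3i
import Pool.Agent.helper62.VQ.SpecE
import Pool.Agent.helper29.RPQ.VOX

/-!
# Project VQ (MP_07c750_an), block 4a + 4b: rigidity of chains of steps, jumps, shadowing; rows `vq:XX4`, last rows I5, I6, SD4

ALL DYNAMICS IS DONE WITH THE FINITE DIFFERENCE `X(t) = (fl E t g)⁻¹ * fl E' t g' = [[a, b], [c, d]]` of two orbits (energies `E`, `E'`). With `r, k` = `rho, kap` at the first orbit and `r', k'` at the second one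
  `a' = (r' - r) a / 2 - (k' b + k c) / 2`,      `b' = -(r + r') b / 2 + (k' a - k d) / 2`,
  `c' = (r + r') c / 2 + (k a - k' d) / 2`,      `d' = (r - r') d / 2 + (k' c + k b) / 2`   (row PD4).
`c` = unstable coordinate, `b` = stable coordinate, `a - d` = difference in the flow direction. The difference in the flow direction is removed by a TIME SHIFT `S` of the second orbit (`a = d`, rows SB4, SP4); without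
it one would lose `exp (C δ t)`. The constants `K` are absolute. Chains of steps are replaced by pseudo-orbits with steps of a fixed time `t ∈ [1, 2]` (`PO`, rows PO4, CH4). `nm x` = `max |entries of x - 1|` (helper62, `VQE.nm`).

RULES. Row `vq:XX4`: file `Pool/Agent/<seat>/VQ/XX4.lean`, `import Pool.Agent.helper84.VQ.Spec4a`, `set_option autoImplicit false`, namespace `Pool.Agent.VQ`, `open Pool.Agent.RS`, `open Pool.Agent.VQE (nm)`, auxiliary lemmas prefixed `XX4_`,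
theorem `XX4_proof (h..) : XX4_stmt` (rows listed in `from` may be used as hypotheses `(h : YY4_stmt)`; the rows of other specs of VQ and VQE likewise). No `convert`, `congr!`, `native_decide`, no double quotes, no `private`.
-/

open scoped MatrixGroups ContDiff Topology UpperHalfPlane ComplexConjugate ENNReal
open UpperHalfPlane MeasureTheory Filter Set

namespace Pool.Agent.VQ

open Pool.Agent.RS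
open Pool.Agent.VQE (nm)

noncomputable section

/-- what is used of the flow: fields close to `(1, 0)`, Lipschitz with a small constant, group property, symmetry `-1`; energies `|E| ≤ d/4` -/
structure FE (d : ℝ) (D : Dyn) : Prop where
  ro : ∀ (E : ℝ) (g : SL(2, ℝ)), |E| ≤ d / 4 → |rho D.U E g - 1| ≤ d
  ka : ∀ (E : ℝ) (g : SL(2, ℝ)), |E| ≤ d / 4 → |kap D.U E g| ≤ d
  lr : ∀ (E E' : ℝ) (g x : SL(2, ℝ)), |E| ≤ d / 4 → |E'| ≤ d / 4 → |rho D.U E' (g * x) - rho D.U E g| ≤ d * nm x + 2 * |E' - E|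
  lk : ∀ (E E' : ℝ) (g x : SL(2, ℝ)), |E| ≤ d / 4 → |E'| ≤ d / 4 → |kap D.U E' (g * x) - kap D.U E g| ≤ d * nm x + 2 * |E' - E|
  zero : ∀ (E : ℝ) (g : SL(2, ℝ)), D.fl E 0 g = g
  add : ∀ (E s t : ℝ) (g : SL(2, ℝ)), |E| ≤ d / 4 → D.fl E (s + t) g = D.fl E s (D.fl E t g)
  neg : ∀ (E t : ℝ) (g : SL(2, ℝ)), |E| ≤ d / 4 → D.fl E t (-g) = -D.fl E t g
  cont : ContinuousOn (fun p : ℝ × ℝ × SL(2, ℝ) => D.fl p.1 p.2.1 p.2.2) {p | |p.1| ≤ d / 4}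
  der : ∀ (E t : ℝ) (g : SL(2, ℝ)), |E| ≤ d / 4 → ∀ i j, HasDerivAt (fun s => (D.fl E s g).1 i j) (((D.fl E t g).1 * XX D.U E (D.fl E t g)) i j) t

/-- the difference of two orbits -/
def Xt (D : Dyn) (E E' : ℝ) (g g' : SL(2, ℝ)) (t : ℝ) : SL(2, ℝ) := (D.fl E t g)⁻¹ * D.fl E' t g'

/-- pseudo-orbits with `n` steps of the time `t` and jumps `ε` (no signs) -/
structure PO (D : Dyn) (d t ε : ℝ) (n : ℕ) (w : ℕ → SL(2, ℝ) × ℝ) : Prop where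
  en : ∀ i ≤ n, |(w i).2| ≤ d / 4
  st : ∀ i < n, nm ((D.fl (w i).2 t (w i).1)⁻¹ * (w (i + 1)).1) ≤ ε ∧ |(w (i + 1)).2 - (w i).2| ≤ ε

/-- `q = ± p` with the same energy -/
def Pm (p q : SL(2, ℝ) × ℝ) : Prop := (q.1 = p.1 ∨ q.1 = -p.1) ∧ q.2 = p.2

/-- the difference of the points number `j` of two pseudo-orbits, the second one shifted by the time `S` -/
def zz (D : Dyn) (w w' : ℕ → SL(2, ℝ) × ℝ) (S : ℝ) (j : ℕ) : SL(2, ℝ) := (w j).1⁻¹ * D.fl (w' j).2 S (w' j).1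

/-! ## 1. The fields -/

/-- **Row FE4** (medium; from FLB (`FLB_stmt` of helper11/VQ/Spec3b: additivity, reversal for `|E| ≤ 1/8`; `K ≥ 1/δ0(FLB)` is allowed, `K` depends on `Γ`; monotonicity of `Pot`, `OKD` in `δ`), `VCD` (helper74/VQ/SpecA)). `neg`: the reversal of FLB twice, `kM(π/2)² = kM π = -1`. Let `V = Ug U g - 1` (smooth on the disc `|v| < 2`: `QU.CD ∞ U`, `cdi`). For `nm x ≤ 1/10`: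
`(g x) • cdi v = g • cdi (m v)`, `m v = cd (x • cdi v)` (holomorphic near `0`), `|m 0| ≤ 4 nm x`, `|m'(0) - 1| ≤ 4 nm x` (explicit Möbius map). So `U((gx)•i) - U(g•i) = V(m 0) - V(0)`, at most `δ |m 0|` (mean value theorem, `‖fderiv V‖ ≤ δ` on `|v| ≤ 1`), and `n2 U (g x) = fderiv V (m 0) (m'(0) i)`,
`|n2 U (gx) - n2 U g| ≤ δ |m 0| + δ |m'(0) - 1|` (second derivative `≤ δ`). For `nm x > 1/10` use the sup bounds `|U - 1| ≤ δ`, `|n2| ≤ δ`. Then `rho = √(U + 2E)`, `|rho - 1| ≤ |U - 1 + 2E| ≤ δ + Kδ/2`, `|rho' - rho| ≤ (|U' - U| + 2|E' - E|)/(rho + rho')`, `kap = n2/(2 rho)`. `Kδ ≤ 1/10`, so `|E| ≤ Kδ/4 ≤ 1/8`. -/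
def FE4_stmt : Prop := ∀ Γ : Subgroup SL(2, ℝ), QU.SurfaceGroup Γ → ∃ K : ℝ, 4 ≤ K ∧ ∀ (δ : ℝ) (B : ℕ → ℝ) (D : Dyn), 0 < δ → K * δ ≤ 1 / 10 → OKD Γ δ B D → FE (K * δ) D

/-! ## 2. Two orbits -/

/-- **Row PD4** (short). `(fl E s g)⁻¹` is the adjugate: entries `d, -b, -c, a`; product rule; `X' = X XX' - XX X` with `XX = [[r/2, k/2], [-k/2, -r/2]]`. -/
def PD4_stmt : Prop := ∀ (d : ℝ) (D : Dyn), FE d D → ∀ (E E' t : ℝ) (g g' : SL(2, ℝ)), |E| ≤ d / 4 → |E'| ≤ d / 4 →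
  ∀ r k r' k' : ℝ, r = rho D.U E (D.fl E t g) → k = kap D.U E (D.fl E t g) → r' = rho D.U E' (D.fl E' t g') → k' = kap D.U E' (D.fl E' t g') →
  HasDerivAt (fun s => (Xt D E E' g g' s).1 0 0) ((r' - r) / 2 * (Xt D E E' g g' t).1 0 0 - (k' * (Xt D E E' g g' t).1 0 1 + k * (Xt D E E' g g' t).1 1 0) / 2) t ∧
  HasDerivAt (fun s => (Xt D E E' g g' s).1 0 1) (-((r + r') / 2 * (Xt D E E' g g' t).1 0 1) + (k' * (Xt D E E' g g' t).1 0 0 - k * (Xt D E E' g g' t).1 1 1) / 2) t ∧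
  HasDerivAt (fun s => (Xt D E E' g g' s).1 1 0) ((r + r') / 2 * (Xt D E E' g g' t).1 1 0 + (k * (Xt D E E' g g' t).1 0 0 - k' * (Xt D E E' g g' t).1 1 1) / 2) t ∧
  HasDerivAt (fun s => (Xt D E E' g g' s).1 1 1) (-((r' - r) / 2 * (Xt D E E' g g' t).1 1 1) + (k' * (Xt D E E' g g' t).1 1 0 + k * (Xt D E E' g g' t).1 0 1) / 2) t

/-- **Row GR4** (Gronwall, two energies; medium; from PD4). `u(s) = X(s) - 1` as a function `Fin 2 → Fin 2 → ℝ` (sup norm `= nm X(s) = N`). By `lr`, `lk` (`g := fl E s g`, `x := X(s)`): `|r' - r|, |k' - k| ≤ dN + 2ε`. `c' = (r+r')c/2 + (k(a-1) - k'(d-1) + (k-k'))/2`, so `|c'| ≤ (1 + 3d)N + ε`, the same for `b`;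
`|a'| ≤ |r'-r||a-1|/2 + |r'-r|/2 + dN ≤ 3dN + ε` (`|r'-r| ≤ 2d` in the first term). `1 + 3d ≤ 11/10`; `norm_le_gronwallBound_of_norm_deriv_right_le` on `[0, t]`, `gronwallBound η κ ε t ≤ (η + ε) exp (κ t)` for `κ ≥ 1`. For `t < 0` the function `u(-s)`. -/
def GR4_stmt : Prop := ∀ (d : ℝ) (D : Dyn), FE d D → 0 < d → d ≤ 1 / 30 → ∀ (E E' t ε : ℝ) (g g' : SL(2, ℝ)), |E| ≤ d / 4 → |E'| ≤ d / 4 → |E' - E| ≤ ε →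
  nm (Xt D E E' g g' t) ≤ (nm (g⁻¹ * g') + ε) * Real.exp (11 / 10 * |t|)

/-- **Row SH4** (short times; short-medium; from FE). `Θ(s) = g⁻¹ fl E s g`, `Θ' = Θ XX`, `Θ(0) = 1`. `N = nm Θ`: `|(Θ-1)'| ≤ (1 + N)(1/2 + d)`, so `N ≤ exp (0.54 |s|) - 1 ≤ |s|` (Gronwall). `Θ₁₀' = Θ₁₀ r/2 - Θ₁₁ k/2`, `|Θ₁₁| ≤ 2`: `|Θ₁₀| ≤ 2 d |s|` (Gronwall or: `|Θ₁₀'| ≤ 0.52 |Θ₁₀| + d`). `Θ₀₁' = Θ₀₀ k/2 - Θ₀₁ r/2` likewise. -/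
def SH4_stmt : Prop := ∀ (d : ℝ) (D : Dyn), FE d D → 0 < d → d ≤ 1 / 30 → ∀ (E s : ℝ) (g : SL(2, ℝ)), |E| ≤ d / 4 → |s| ≤ 1 →
  nm (g⁻¹ * D.fl E s g) ≤ 2 * |s| ∧ |(g⁻¹ * D.fl E s g).1 0 1| ≤ 4 * d * |s| ∧ |(g⁻¹ * D.fl E s g).1 1 0| ≤ 4 * d * |s|

/-- **Row SA4** (one step of time `t ∈ [1, 2]`; medium; from PD4, GR4). `n = nm x`, `N(s) = nm X(s) ≤ 10 (n + ε) =: B ≤ 20` (GR4, `e^2.2 ≤ 10`). (1) `c' = (r+r')c/2 + F`, `F = (k(a-1) - k'(d-1) + (k-k'))/2`, `|F| ≤ 2dB + ε =: f`. `Λ(s) = ∫_0^s (r+r')/2 ∈ [(1-d)s, (1+d)s]` (`rho` is Lipschitz, so `r, r'` are continuous in `s`),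
`(c e^(-Λ))' = F e^(-Λ)`, so `|c(t) - e^(Λ(t)) c(0)| ≤ e^(Λ(t)) t f ≤ 20 f`; `lam = e^(Λ(t)) ∈ [e^(29/30), e^(2.07)] ⊂ [12/5, 10]`. (2) `(b e^Λ)' = G e^Λ`, `|G| ≤ f`: `|b(t)| ≤ e^(-Λ(t)) |b(0)| + 20 f`. (3) `(a-d)' = (r'-r)(a+d)/2 - (k+k')(b+c)/2`, at most `(dB + 2ε)(1+B) + 2dB`. `dB ≤ 10dn + ε`. -/
def SA4_stmt : Prop := ∃ K : ℝ, 1 ≤ K ∧ ∀ (d : ℝ) (D : Dyn), FE d D → 0 < d → d ≤ 1 / 30 → ∀ (E E' t ε : ℝ) (g g' x y : SL(2, ℝ)), |E| ≤ d / 4 → |E'| ≤ d / 4 → |E' - E| ≤ ε → ε ≤ 1 → 1 ≤ t → t ≤ 2 →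
  x = g⁻¹ * g' → y = Xt D E E' g g' t → nm x ≤ 1 → nm y ≤ 10 * (nm x + ε) ∧ (∃ lam : ℝ, 12 / 5 ≤ lam ∧ lam ≤ 10 ∧ |y.1 1 0 - lam * x.1 1 0| ≤ K * (d * nm x + ε)) ∧
    |y.1 0 1| ≤ 1 / 2 * |x.1 0 1| + K * (d * nm x + ε) ∧ |(y.1 0 0 - y.1 1 1) - (x.1 0 0 - x.1 1 1)| ≤ K * (d * nm x + ε)

/-- **Row SB4** (recentering; medium; from SH4). `x(s) = g⁻¹ fl E' s g'`, `x' = x XX'`. For `|s| ≤ 2/25`: `nm x(s) ≤ 1/5` (SH4 for `g'⁻¹ fl E' s g'`). `ψ = a - d`, `ψ' = r'(a+d)/2 - k'(b+c)/2 ≥ 1/2`, `|ψ(0)| ≤ 1/25`: `ψ(2|ψ(0)|) ≥ 0 ≥ ψ(-2|ψ(0)|)`, intermediate value theorem. `|b'| = |a k'/2 - b r'/2| ≤ 1`, `|c'| = |c r'/2 - d k'/2| ≤ 1`. -/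
def SB4_stmt : Prop := ∀ (d : ℝ) (D : Dyn), FE d D → 0 < d → d ≤ 1 / 30 → ∀ (E' : ℝ) (g g' x : SL(2, ℝ)), |E'| ≤ d / 4 → x = g⁻¹ * g' → nm x ≤ 1 / 50 →
  ∃ (s : ℝ) (z : SL(2, ℝ)), z = g⁻¹ * D.fl E' s g' ∧ |s| ≤ 2 * |x.1 0 0 - x.1 1 1| ∧ z.1 0 0 = z.1 1 1 ∧ 0 < z.1 0 0 ∧ |z.1 0 1 - x.1 0 1| ≤ |s| ∧ |z.1 1 0 - x.1 1 0| ≤ |s|

/-- **Row SP4** (one step with jumps and time shift; medium; from GR4, SA4, SB4). `β = |x₀₁| + |x₁₀|`; `x₀₀² = 1 + x₀₁x₁₀`, so `nm x ≤ β`. `ĝ = fl E' S g'`, `y = Xt E E' g ĝ t` (SA4). `ĝ1 = fl E1' S g1'`. `g1⁻¹ ĝ1 = n1⁻¹ y n2`, `n1 = (fl E t g)⁻¹ g1`, `n2 = (fl E' t ĝ)⁻¹ ĝ1 = (fl E' S (fl E' t g'))⁻¹ fl E1' S g1'` (`add`: `t + S = S + t`),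
`nm n2 ≤ 2ε e^(11/20) ≤ 4ε` (GR4). So the entries of `z0 = g1⁻¹ĝ1` differ from those of `y` by at most `20 ε` (`nm y ≤ 1/2`), `nm z0 ≤ 1/50`. SB4 for `(g1, ĝ1)`, energy `E1'`: `S1 = S + s`, `fl E1' s (fl E1' S g1') = fl E1' (s + S) g1'`. `nm (a⁻¹) = nm a`. -/
def SP4_stmt : Prop := ∃ K : ℝ, 1 ≤ K ∧ ∀ (d : ℝ) (D : Dyn), FE d D → 0 < d → d ≤ 1 / K → ∀ (t ε S E E' E1' : ℝ) (g g' g1 g1' x : SL(2, ℝ)), 1 ≤ t → t ≤ 2 → 0 ≤ ε → ε ≤ 1 / K → |S| ≤ 1 / 2 →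
  |E| ≤ d / 4 → |E'| ≤ d / 4 → |E1'| ≤ d / 4 → |E' - E| ≤ ε → |E1' - E'| ≤ ε → nm ((D.fl E t g)⁻¹ * g1) ≤ ε → nm ((D.fl E' t g')⁻¹ * g1') ≤ ε →
  x = g⁻¹ * D.fl E' S g' → x.1 0 0 = x.1 1 1 → 0 < x.1 0 0 → |x.1 0 1| ≤ 1 / K → |x.1 1 0| ≤ 1 / K →
  ∃ (S1 lam : ℝ) (z : SL(2, ℝ)), z = g1⁻¹ * D.fl E1' S1 g1' ∧ |S1 - S| ≤ K * (d * (|x.1 0 1| + |x.1 1 0|) + ε) ∧ z.1 0 0 = z.1 1 1 ∧ 0 < z.1 0 0 ∧ 2 ≤ lam ∧ lam ≤ 10 ∧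
    |z.1 1 0 - lam * x.1 1 0| ≤ K * (d * (|x.1 0 1| + |x.1 1 0|) + ε) ∧ |z.1 0 1| ≤ 1 / 2 * |x.1 0 1| + K * (d * (|x.1 0 1| + |x.1 1 0|) + ε)

/-- **Row GL4** (the cone `θ max(|a|,|b|,|d|) ≤ |c|` is invariant, GLOBALLY in `SL(2, ℝ)`; medium; from PD4). `M0 = max |entries of x| ≤ |x₁₀|/θ`. `|entries of X'| ≤ (1 + 2d) max |entries of X|`, so `max |entries of X(s)| ≤ 10 M0` for `s ≤ 2` (Gronwall). As in SA4 (now `F = (ka - k'd)/2`, `|F| ≤ 10 d M0`, `|r'-r| ≤ 2d`):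
`|c(t)| ≥ (12/5)|c(0)| - 200 d M0 ≥ (23/10)|c(0)|` with the same sign, and `|a(t)| ≤ |a(0)| + 200 d M0`, `|d(t)|`, `|b(t)|` likewise (`e^(-Λ) ≤ 1`): at most `(101/100) |c(0)|/θ`. Jumps: `y = n⁻¹ X(t) n'`, `nm n, nm n' ≤ ε`: every entry changes by at most `10 ε · 10 M0 ≤ 100 (ε/θ) |c(0)|`. So `|y₁₀| ≥ 2 |c(0)|`, the others are at most `2|c(0)|/θ`. -/
def GL4_stmt : Prop := ∃ K : ℝ, 1 ≤ K ∧ ∀ (θ d : ℝ) (D : Dyn), 0 < θ → θ ≤ 1 → FE d D → 0 < d → d ≤ θ / K → ∀ (t ε E E' : ℝ) (g g' g1 g1' x y : SL(2, ℝ)), 1 ≤ t → t ≤ 2 → 0 ≤ ε → ε ≤ θ / K →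
  |E| ≤ d / 4 → |E'| ≤ d / 4 → nm ((D.fl E t g)⁻¹ * g1) ≤ ε → nm ((D.fl E' t g')⁻¹ * g1') ≤ ε → x = g⁻¹ * g' → y = g1⁻¹ * g1' →
  θ * |x.1 0 0| ≤ |x.1 1 0| → θ * |x.1 0 1| ≤ |x.1 1 0| → θ * |x.1 1 1| ≤ |x.1 1 0| →
  θ * |y.1 0 0| ≤ |y.1 1 0| ∧ θ * |y.1 0 1| ≤ |y.1 1 0| ∧ θ * |y.1 1 1| ≤ |y.1 1 0| ∧ 0 < x.1 1 0 * y.1 1 0

/-! ## 3. Two pseudo-orbits -/

/-- **Row RE4** (local phase; medium; from SP4; induction). `K0` the constant of SP4, `K = 200 K0`. Write `x = |(z_j)₀₁|`, `y = |(z_j)₁₀|`, `z_j = zz D w w' (S j) j`, `e = K0(d(x+y) + ε) ≤ (x+y)/100 + K0 ε`. INVARIANTS: `x ≤ 8K0ε + y/2`, `|S j| ≤ 2K0 jε + y/10`. One step (SP4): `x1 ≤ x/2 + e`, `2y - e ≤ y1 ≤ 10y + e`, `|S (j+1)| ≤ |S j| + e`;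
`e ≤ 1.08 K0ε + 0.015 y`, so `y ≤ 0.504 y1 + 0.545 K0ε`, `x1 ≤ 5.3 K0ε + 0.14 y1`, `|S (j+1)| ≤ 2K0(j+1)ε + y1/10`. If `y ≥ Kε` then `e < y/10`: same sign and `y1 ≥ y`. Start: `S 0 = 0`, `z_0 = lM u`. Stop at the first `j` with `y > 1/K`. Proof by induction on `n` of the statement (extend `S` by `Function.update`). -/
def RE4_stmt : Prop := ∃ K : ℝ, 1 ≤ K ∧ ∀ (d : ℝ) (D : Dyn), FE d D → 0 < d → d ≤ 1 / K → ∀ (t ε u : ℝ) (n : ℕ) (w w' : ℕ → SL(2, ℝ) × ℝ), 1 ≤ t → t ≤ 2 → 0 < ε → K * ((n + 1) * ε) ≤ 1 →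
  PO D d t ε n w → PO D d t ε n w' → (∀ i ≤ n, |(w' i).2 - (w i).2| ≤ ε) → (w 0).1⁻¹ * (w' 0).1 = lM u → |u| ≤ 1 / K →
  ∃ (S : ℕ → ℝ) (m : ℕ), m ≤ n ∧ S 0 = 0 ∧
    (∀ j ≤ m, (zz D w w' (S j) j).1 0 0 = (zz D w w' (S j) j).1 1 1 ∧ 0 < (zz D w w' (S j) j).1 0 0 ∧ |S j| ≤ K * (j * ε) + |(zz D w w' (S j) j).1 1 0| / 10 ∧
      |(zz D w w' (S j) j).1 0 1| ≤ K * ε + |(zz D w w' (S j) j).1 1 0| / 2 ∧ |(zz D w w' (S j) j).1 1 0| ≤ 1 / 2) ∧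
    (∀ j < m, |(zz D w w' (S j) j).1 1 0| ≤ 1 / K ∧ |(zz D w w' (S j) j).1 1 0| ≤ 3 / 5 * |(zz D w w' (S (j + 1)) (j + 1)).1 1 0| + K * ε ∧
      (K * ε ≤ |(zz D w w' (S j) j).1 1 0| → 0 < (zz D w w' (S j) j).1 1 0 * (zz D w w' (S (j + 1)) (j + 1)).1 1 0 ∧
        |(zz D w w' (S j) j).1 1 0| ≤ |(zz D w w' (S (j + 1)) (j + 1)).1 1 0|)) ∧
    (m = n ∨ 1 / K < |(zz D w w' (S m) m).1 1 0|)

/-- **Row DI4** (THE DICHOTOMY; medium; from SH4, RE4, GL4). `K1` the constant of RE4, `θ = 1/(4K1)`, `K2` that of GL4, `K = 1000 K1² K2`. `x_i = (w i)⁻¹ (w' i)`, for `i ≤ m`: `x_i = z_i Θ_i`, `Θ_i = ĝ⁻¹ fl E'_i (-S_i) ĝ`, `ĝ = fl E'_i S_i (w' i)`, SH4: `nm Θ_i ≤ 2|S_i|`, `|(Θ_i)₁₀| ≤ 4d|S_i|`, `|S_i| ≤ 1/10`. With `c_i = (z_i)₁₀`: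
`|(x_i)₁₀ - c_i| ≤ |c_i| nm Θ_i + 2·4d|S_i| ≤ |c_i|/4 + (n+1)ε/4` (*). EXIT (`|c_m| > 1/K1`): `|(x_m)₁₀| ≥ 1/(2K1)` with the sign of `c_m`, the other entries are at most `2`: cone of GL4 with `θ`, which is kept for `i = m, …, n`: `(x_n)₁₀ ≠ 0` has the sign of `c_m`. NO EXIT (`m = n`, `|c_n| ≤ 1/K1`): if `(x_n)₁₀ = 0` then `|c_n| ≤ (n+1)ε` by (*),
and going down `|c_j| ≤ (3/5)|c_(j+1)| + K1ε` gives `|c_j| ≤ 3K1(n+1)ε`, so `|S_j| ≤ 2K1(n+1)ε`, `nm z_j ≤ |(z_j)₀₁| + |c_j| ≤ 6K1(n+1)ε`, `nm x_j ≤ nm z_j + nm Θ_j + 2 nm z_j nm Θ_j`. LAST PART: if `|u| ≥ K(n+1)ε` then `c_j` has the sign of `u` and `|c_j| ≥ |u|` for all `j ≤ m` (RE4), and (*) or the exit case. -/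
def DI4_stmt : Prop := ∃ K : ℝ, 1 ≤ K ∧ ∀ (d : ℝ) (D : Dyn), FE d D → 0 < d → d ≤ 1 / K → ∀ (t ε u : ℝ) (n : ℕ) (w w' : ℕ → SL(2, ℝ) × ℝ), 1 ≤ t → t ≤ 2 → 0 < ε → K * ((n + 1) * ε) ≤ 1 →
  PO D d t ε n w → PO D d t ε n w' → (∀ i ≤ n, |(w' i).2 - (w i).2| ≤ ε) → (w 0).1⁻¹ * (w' 0).1 = lM u → |u| ≤ 1 / K →
  (((w n).1⁻¹ * (w' n).1).1 1 0 = 0 → ∀ i ≤ n, nm ((w i).1⁻¹ * (w' i).1) ≤ K * ((n + 1) * ε)) ∧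
  (K * ((n + 1) * ε) ≤ |u| → 0 < u * ((w n).1⁻¹ * (w' n).1).1 1 0)

/-! ## 4. From chains of steps to pseudo-orbits -/

/-- **Row CA4** (concatenation; short). If the end point of the first is minus the starting point of the second, replace the second by `-w2` (`neg`; `(-x)⁻¹ (-y) = x⁻¹ y`). -/
def CA4_stmt : Prop := ∀ (d : ℝ) (D : Dyn), FE d D → ∀ (t ε : ℝ) (n1 n2 : ℕ) (w1 w2 : ℕ → SL(2, ℝ) × ℝ), PO D d t ε n1 w1 → PO D d t ε n2 w2 → Pm (w2 0) (w1 n1) →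
  ∃ w : ℕ → SL(2, ℝ) × ℝ, PO D d t ε (n1 + n2) w ∧ (∀ i ≤ n1, w i = w1 i) ∧ ∀ i ≤ n2, Pm (w2 i) (w (n1 + i))

/-- **Row PO4** (medium; from CA4; induction on `A.m`). One small step `Nb r (ph σ p) x` (`σ = k t`): the points `(fl E (i t) g, E)`, `i < k` (`add`), and `± x`. The final jump `Nb r x_m q` is joined to the last step: `x_m⁻¹ q` and `(fl ..)⁻¹ x_m` in `Bo r`: the product is within `2r + 2r² ≤ 3r` of `± 1`. `RC` is defined by recursion (first step first), so do the induction on the number of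
steps `m ≥ 1` for `RC D σ r (Wi 2 R) m p q`. -/
def PO4_stmt : Prop := ∀ (d : ℝ) (D : Dyn), FE d D → ∀ (A : Prm) (R t ε : ℝ) (k : ℕ) (p q : SL(2, ℝ) × ℝ), A.sg R = k * t → 1 ≤ k → 1 ≤ A.m → 0 < A.r R → A.r R ≤ 1 / 100 → 3 * A.r R ≤ ε → (∀ E ∈ Wi 2 R, |E| ≤ d / 4) →
  Reach D A R p q → ∃ w : ℕ → SL(2, ℝ) × ℝ, PO D d t ε (A.m * k) w ∧ w 0 = p ∧ Pm q (w (A.m * k)) ∧ ∀ i ≤ A.m * k, |(w i).2 - p.2| ≤ (A.m + 1) * A.r R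

/-- **Row CH4** (short-medium; from CA4, PO4; induction on `N`). -/
def CH4_stmt : Prop := ∀ (d : ℝ) (D : Dyn), FE d D → ∀ (A : Prm) (R t ε : ℝ) (k N : ℕ) (v : ℕ → SL(2, ℝ) × ℝ), A.sg R = k * t → 1 ≤ k → 1 ≤ A.m → 0 < A.r R → A.r R ≤ 1 / 100 → 3 * A.r R ≤ ε → (∀ E ∈ Wi 2 R, |E| ≤ d / 4) → 1 ≤ N →
  Ch D A R N v → ∃ w : ℕ → SL(2, ℝ) × ℝ, PO D d t ε (N * (A.m * k)) w ∧ w 0 = v 0 ∧ (∀ j ≤ N, Pm (v j) (w (j * (A.m * k)))) ∧ ∀ i ≤ N * (A.m * k), |(w i).2 - (v 0).2| ≤ N * ((A.m + 1) * A.r R)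

/-- **Row AR4** (asymptotics; short-medium; pure). `σ = e3 log R`, `k = ⌊σ⌋₊`, `t = σ/k`, `n + 1 ≤ N m k + 1 ≤ N log R + 1`, `ε = 4 N (m+1) r`, `r = R^(-1/2+z2)`, `0 < z2 ≤ 1/10` (`Adm 10 A`: `z2 ≥ 1000 e3 > 0`, `m z2 ≤ 1/10`), powers of `log R` are absorbed by `R^(z2)`. -/
def AR4_stmt : Prop := ∀ (A : Prm) (N : ℕ) (K d : ℝ), Adm 10 A → 1 ≤ N → 1 ≤ K → 0 < d → ∃ R0 : ℝ, 3 ≤ R0 ∧ ∀ R : ℝ, R0 ≤ R → ∃ (k : ℕ) (t ε : ℝ), 1 ≤ k ∧ 1 ≤ t ∧ t ≤ 2 ∧ A.sg R = k * t ∧ 0 < A.r R ∧ A.r R ≤ 1 / 100 ∧ 0 < ε ∧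
  3 * A.r R ≤ ε ∧ 2 * (N * ((A.m + 1) * A.r R)) ≤ ε ∧ K * (((N * (A.m * k) : ℕ) + 1) * ε) ≤ R ^ (-(1 / 2) + 3 / 2 * A.z2) ∧ R ^ (-(1 / 2) + 3 / 2 * A.z2) ≤ 1 / (10 * K) ∧ (∀ E ∈ Wi 2 R, |E| ≤ d / 4) ∧
  K * (R ^ (-(1 / 2) + 3 / 2 * A.z2)) ^ 4 ≤ R ^ (-2 + 10 * A.z2) ∧ 20 * (A.m + 1) * A.r R * Real.exp (11 / 10 * A.tu R) ≤ R ^ (-(1 / 5) : ℝ)

/-! ## 5. Rigidity, jumps, shadowing -/

/-- **Row BX4** (short-medium; from RPQ.VOX (`RPQ.VOX_proof`), left invariance of `mG` (`RS.A_GLI`/`RS.A_GMG`)). `nm b ≤ ρ` or `nm (-b) ≤ ρ` implies: entries `≤ 3`, `|b₁₀|, |b₀₁| ≤ ρ`, `|b₀₀ - b₁₁| ≤ 2ρ`. `mW R = mG × volume|_(Wi 2 R)`; the set is a product. -/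
def BX4_stmt : Prop := ∃ C : ℝ, 1 ≤ C ∧ ∀ (R ρ : ℝ) (p : SL(2, ℝ) × ℝ), 0 < ρ → ρ ≤ 1 / 10 → SigmaFinite (mW R) ∧
  mW R {q : SL(2, ℝ) × ℝ | (nm (p.1⁻¹ * q.1) ≤ ρ ∨ nm (-(p.1⁻¹ * q.1)) ≤ ρ) ∧ |q.2 - p.2| ≤ ρ} ≤ ENNReal.ofReal (C * ρ ^ 4)

/-- **Row I5** = `I5_stmt` of Spec3i (medium; from FE4, DI4, CH4, AR4, BX4). `K0` of FE4, `K` of DI4, `C'` of BX4: `δ0` with `d = K0 δ0 ≤ 1/K`, `1/10`; `C = 10` (or larger). AR4 with `K := max K C'`. If the set of `v` is not empty fix `v0` in it. For every other `v` in it: pseudo-orbits `w`, `w'` of the chains of `v0`, `v` (CH4), `w 0 = p = w' 0` (`lM 0 = 1`), energies differ by at most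
`2N(m+1)r ≤ ε`; `w n = ± q`, `w' n = ± q`, so `(w n)⁻¹ (w' n) = ± 1` has `₁₀`-entry `0`; DI4: `nm ((w i)⁻¹ (w' i)) ≤ ρ := R^(-1/2 + 3 z2/2)`. At `i = j m k`: `(v0_j)⁻¹ v_j = ± (w i)⁻¹ (w' i)`. So the set is contained in the product of the sets of BX4 (centres `vz p q v0 (j+1)`), `Measure.pi_pi`, `C' ρ⁴ ≤ R^(-2 + 10 z2)`. -/
def I54_stmt : Prop := I5_stmt

/-- **Row I6** = `I6_stmt` of Spec3i (short-medium; from FE4, GR4, AR4 (`N = 1`, `K = 1`)). Induction on the number of steps for `RC`: if `(fl E_x (j σ) x)⁻¹ q` is within `e_j` of `± 1` then, with `p → x` one small step, `fl E_p ((j+1)σ) p = fl E_p (jσ) (fl E_p σ p)`, GR4: `(fl E_p (jσ) (fl E_p σ p))⁻¹ fl E_x (jσ) (± x)` is within `2 r e^(1.1 jσ)` of `1`;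
`e_(j+1) ≤ e_j + 3·2 r e^(1.1 jσ)`, total `≤ 7 (m+1) r e^(1.1 τ) < R^(-1/5)` (last part of AR4). -/
def I64_stmt : Prop := I6_stmt

/-- **Row SD4** (SHADOWING, used in block 4c; medium; from FE4, DI4, PO4, AR4 (`N = 1`)). `w'` = pseudo-orbit of `Reach D A R p q` (PO4), `w_u i = (fl E_p (i t) (g_p lM u), E_p)` (a pseudo-orbit with jumps `0`), `(w_u 0)⁻¹ (w' 0) = lM (-u)`. The function `u ↦ ((w_u n)⁻¹ (w' n))₁₀` is continuous on `|u| ≤ ρ = R^(-1/2 + 3z2/2)` (`cont`) and has opposite signs at `± ρ` (last part of DI4), so it vanishes for some `u`; then DI4: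
`nm ((w_u n)⁻¹ (w' n)) ≤ ρ`, `w' n = ± q`, `n t = m k t = τ`. -/
def SD4_stmt : Prop := ∀ (Γ : Subgroup SL(2, ℝ)), QU.SurfaceGroup Γ → ∃ δ0 C : ℝ, 0 < δ0 ∧ 1 ≤ C ∧ ∀ (B : ℕ → ℝ) (A : Prm), Adm C A → ∃ R0 : ℝ, 1 ≤ R0 ∧
  ∀ (R : ℝ) (D : Dyn), R0 ≤ R → OKD Γ δ0 B D → ∀ p q : SL(2, ℝ) × ℝ, Reach D A R p q → |p.2 - q.2| ≤ R ^ (-(1 / 2) + 3 / 2 * A.z2) ∧
    ∃ (u : ℝ) (x : SL(2, ℝ)), |u| ≤ R ^ (-(1 / 2) + 3 / 2 * A.z2) ∧ x = (D.fl p.2 (A.tu R) (p.1 * lM u))⁻¹ * q.1 ∧ x.1 1 0 = 0 ∧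
      (nm x ≤ R ^ (-(1 / 2) + 3 / 2 * A.z2) ∨ nm (-x) ≤ R ^ (-(1 / 2) + 3 / 2 * A.z2))

end

end Pool.Agent.VQ
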