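import Pool.Agent.helper84.VQ.Spec4a
import Pool.Agent.helper14.VQE.NMB
import Pool.Agent.helper29.RPQ.VOX
import Pool.Agent.helper62.RS.All

/-!
# Project VQ (MP_07c750_an), row BX4: volume of boxes
-/

set_option autoImplicit false

open scoped MatrixGroups ContDiff Topology UpperHalfPlane ComplexConjugate ENNReal
open UpperHalfPlane MeasureTheory Filter Set

namespace Pool.Agent.VQ

open Pool.Agent.RS
open Pool.Agent.VQE (nm NMB_le NMB_cont)

lemma BX4_negc (b : SL(2, ℝ)) (i j : Fin 2) : (-b).1 i j = -b.1 i j := by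
  have h : (-b).1 = -b.1 := Matrix.SpecialLinearGroup.coe_neg b
  rw [h]
  rfl

lemma BX4_cl (ρ : ℝ) : IsClosed {b : SL(2, ℝ) | nm b ≤ ρ ∨ nm (-b) ≤ ρ} := by
  have h : Continuous (fun b : SL(2, ℝ) => -b) := by
    have h : (fun b : SL(2, ℝ) => -b) = fun b => (-1) * b := funext fun b => (neg_one_mul b).symm
    rw [h]
    exact continuous_const.mul continuous_id
  exact (isClosed_le NMB_cont continuous_const).union (isClosed_le (NMB_cont.comp h) continuous_const)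

lemma BX4_sub1 (ρ : ℝ) (hρ : ρ ≤ 1 / 10) (b : SL(2, ℝ)) (h : nm b ≤ ρ) :
    (∀ i j, |b.1 i j| ≤ 3) ∧ |b.1 1 0| ≤ ρ ∧ |b.1 0 1| ≤ ρ ∧ |b.1 0 0 - b.1 1 1| ≤ 2 * ρ := by
  have h00 := (NMB_le b 0 0).trans h
  have h01 := (NMB_le b 0 1).trans h
  have h10 := (NMB_le b 1 0).trans h
  have h11 := (NMB_le b 1 1).trans h
  simp only [Matrix.one_apply_eq, ne_eq, zero_ne_one, one_ne_zero, not_false_eq_true, Matrix.one_apply_ne, sub_zero] at h00 h01 h10 h11
  refine ⟨?_, h10, h01, ?_⟩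
  · rw [Fin.forall_fin_two]
    constructor
    · rw [Fin.forall_fin_two]
      constructor
      · rw [abs_le] at h00 ⊢
        constructor <;> linarith [h00.1, h00.2]
      · linarith
    · rw [Fin.forall_fin_two]
      constructor
      · linarith
      · rw [abs_le] at h11 ⊢
        constructor <;> linarith [h11.1, h11.2]
  · rw [abs_le] at h00 h11 ⊢
    constructor <;> linarith [h00.1, h00.2, h11.1, h11.2]

theorem BX4_proof : BX4_stmt := by
  obtain ⟨C, hC, H⟩ := RPQ.VOX_proof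
  refine ⟨4 * C + 1, by linarith, ?_⟩
  intro R ρ p hρ hρ1
  have hsf : SigmaFinite mG := A_GMG.2.2.1
  refine ⟨by unfold mW; infer_instance, ?_⟩
  have hA0 : mG {b : SL(2, ℝ) | nm b ≤ ρ ∨ nm (-b) ≤ ρ} ≤ ENNReal.ofReal (C * (ρ * ρ * (2 * ρ))) := by
    refine le_trans (measure_mono ?_) (H ρ ρ (2 * ρ) hρ (by linarith) hρ (by linarith))
    rintro b (h | h)
    · exact BX4_sub1 ρ hρ1 b h
    · obtain ⟨h1, h2, h3, h4⟩ := BX4_sub1 ρ hρ1 (-b) h
      simp only [BX4_negc, abs_neg] at h1 h2 h3 h4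
      refine ⟨h1, h2, h3, ?_⟩
      rw [show -b.1 0 0 - -b.1 1 1 = -(b.1 0 0 - b.1 1 1) by ring, abs_neg] at h4
      exact h4
  have hmp : MeasurePreserving (fun h : SL(2, ℝ) => p.1⁻¹ * h) mG mG := ⟨(continuous_const.mul continuous_id).measurable, A_GLI p.1⁻¹⟩
  have hset : {q : SL(2, ℝ) × ℝ | (nm (p.1⁻¹ * q.1) ≤ ρ ∨ nm (-(p.1⁻¹ * q.1)) ≤ ρ) ∧ |q.2 - p.2| ≤ ρ} =
      ((fun h : SL(2, ℝ) => p.1⁻¹ * h) ⁻¹' {b : SL(2, ℝ) | nm b ≤ ρ ∨ nm (-b) ≤ ρ}) ×ˢ Icc (p.2 - ρ) (p.2 + ρ) := by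
    ext q
    constructor
    · rintro ⟨h1, h2⟩
      refine ⟨h1, ?_⟩
      rw [abs_le] at h2
      exact ⟨by linarith [h2.1], by linarith [h2.2]⟩
    · rintro ⟨h1, h2⟩
      refine ⟨h1, ?_⟩
      rw [abs_le]
      exact ⟨by linarith [h2.1], by linarith [h2.2]⟩
  rw [hset]
  unfold mW
  rw [Measure.prod_prod, hmp.measure_preimage (BX4_cl ρ).measurableSet.nullMeasurableSet]
  calc mG {b : SL(2, ℝ) | nm b ≤ ρ ∨ nm (-b) ≤ ρ} * (volume.restrict (Wi 2 R)) (Icc (p.2 - ρ) (p.2 + ρ))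
      ≤ ENNReal.ofReal (C * (ρ * ρ * (2 * ρ))) * ENNReal.ofReal (2 * ρ) := by
        refine mul_le_mul' hA0 ?_
        refine (Measure.restrict_apply_le _ _).trans ?_
        rw [Real.volume_Icc]
        apply ENNReal.ofReal_le_ofReal
        linarith
    _ = ENNReal.ofReal (C * (ρ * ρ * (2 * ρ)) * (2 * ρ)) := by
        rw [ENNReal.ofReal_mul (p := C * (ρ * ρ * (2 * ρ))) (by positivity)]
    _ ≤ ENNReal.ofReal ((4 * C + 1) * ρ ^ 4) := by
        apply ENNReal.ofReal_le_ofReal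
        have : 0 ≤ ρ ^ 4 := by positivity
        nlinarith

end Pool.Agent.VQ
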