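import Pool.Agent.helper84.VQ.Spec4a
import Pool.Agent.helper14.VQE.NMB

set_option autoImplicit false

open scoped MatrixGroups ContDiff Topology UpperHalfPlane ComplexConjugate ENNReal
open UpperHalfPlane MeasureTheory Filter Set

namespace Pool.Agent.VQ

open Pool.Agent.RS
open Pool.Agent.VQE (nm)

noncomputable section

theorem DI4_mul (z y : SL(2, ℝ)) : (z * y).1 0 0 = z.1 0 0 * y.1 0 0 + z.1 0 1 * y.1 1 0 ∧ (z * y).1 0 1 = z.1 0 0 * y.1 0 1 + z.1 0 1 * y.1 1 1 ∧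
    (z * y).1 1 0 = z.1 1 0 * y.1 0 0 + z.1 1 1 * y.1 1 0 ∧ (z * y).1 1 1 = z.1 1 0 * y.1 0 1 + z.1 1 1 * y.1 1 1 := by
  refine ⟨?_, ?_, ?_, ?_⟩ <;> simp [Matrix.SpecialLinearGroup.coe_mul, Matrix.mul_apply, Fin.sum_univ_two]

theorem DI4_det (z : SL(2, ℝ)) : z.1 0 0 * z.1 1 1 - z.1 0 1 * z.1 1 0 = 1 := by
  have := z.2
  rwa [Matrix.det_fin_two] at this

theorem DI4_nm (x : SL(2, ℝ)) : |x.1 0 0 - 1| ≤ nm x ∧ |x.1 0 1| ≤ nm x ∧ |x.1 1 0| ≤ nm x ∧ |x.1 1 1 - 1| ≤ nm x :=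
  ⟨le_max_of_le_left (le_max_left _ _), le_max_of_le_left (le_max_right _ _), le_max_of_le_right (le_max_left _ _), le_max_of_le_right (le_max_right _ _)⟩

theorem DI4_nm_le (x : SL(2, ℝ)) (r : ℝ) (h1 : |x.1 0 0 - 1| ≤ r) (h2 : |x.1 0 1| ≤ r) (h3 : |x.1 1 0| ≤ r) (h4 : |x.1 1 1 - 1| ≤ r) : nm x ≤ r :=
  max_le (max_le h1 h2) (max_le h3 h4)

/-- the size of the diagonal entry of a centred matrix -/
theorem DI4_diag {a b c : ℝ} (ha : 0 < a) (hd : a * a - b * c = 1) : |a - 1| ≤ |b| * |c| := by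
  have h1 : (a - 1) * (a + 1) = b * c := by linarith
  have h2 : |a - 1| * (a + 1) = |b| * |c| := by
    rw [← abs_mul, ← h1, abs_mul, abs_of_pos (by linarith : 0 < a + 1)]
  nlinarith [abs_nonneg (a - 1)]

/-- the shift back to the original time -/
theorem DI4_shift (hSH4 : SH4_stmt) (d : ℝ) (D : Dyn) (hD : FE d D) (hd : 0 < d) (hd1 : d ≤ 1 / 30) (w w' : ℕ → SL(2, ℝ) × ℝ) (S : ℝ) (j : ℕ) (hE : |(w' j).2| ≤ d / 4) (hS : |S| ≤ 1) :
    ∃ y : SL(2, ℝ), (w j).1⁻¹ * (w' j).1 = zz D w w' S j * y ∧ nm y ≤ 2 * |S| ∧ |y.1 0 1| ≤ 4 * d * |S| ∧ |y.1 1 0| ≤ 4 * d * |S| := by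
  have h1 : D.fl (w' j).2 (-S) (D.fl (w' j).2 S (w' j).1) = (w' j).1 := by
    rw [← hD.add _ _ _ _ hE, neg_add_cancel, hD.zero]
  have h2 := hSH4 d D hD hd hd1 (w' j).2 (-S) (D.fl (w' j).2 S (w' j).1) hE (by rwa [abs_neg])
  rw [h1, abs_neg] at h2
  refine ⟨_, ?_, h2⟩
  unfold zz
  group

theorem DI4_sign {x c e : ℝ} (h : |x - c| ≤ |c| / 4 + e / 4) (he : e ≤ |c|) (hc : c ≠ 0) : 0 < x * c ∧ |c| / 2 ≤ |x| := by
  have h0 : 0 < |c| := abs_pos.2 hc
  have h1 : |x - c| ≤ |c| / 2 := by linarith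
  constructor
  · have h2 : x * c = c ^ 2 + (x - c) * c := by ring
    have h3 : |(x - c) * c| ≤ |c| / 2 * |c| := by
      rw [abs_mul]
      exact mul_le_mul_of_nonneg_right h1 h0.le
    have h4 := neg_abs_le ((x - c) * c)
    have h5 : c ^ 2 = |c| * |c| := by rw [abs_mul_abs_self]; ring
    nlinarith
  · have h2 : |c| ≤ |x| + |x - c| := by
      have h3 : c = x - (x - c) := by ring
      calc |c| = |x - (x - c)| := by rw [← h3]
        _ ≤ |x| + |x - c| := abs_sub _ _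
    linarith

/-- the star estimate for a centred matrix times a short time shift -/
theorem DI4_star {K1 d ε e N S : ℝ} {z y : SL(2, ℝ)} (hK1 : 1 ≤ K1) (hd : 0 < d) (hdK : d * K1 ≤ 1 / 1000) (hε : 0 < ε) (hN : 0 ≤ N) (he : e = (N + 1) * ε)
    (hKe : K1 * e ≤ 1 / 1000) (hz : z.1 0 0 = z.1 1 1) (hz0 : 0 < z.1 0 0) (hS : |S| ≤ K1 * (N * ε) + |z.1 1 0| / 10) (hb : |z.1 0 1| ≤ K1 * ε + |z.1 1 0| / 2)
    (hc : |z.1 1 0| ≤ 1 / 2) (hy : nm y ≤ 2 * |S|) (hy1 : |y.1 0 1| ≤ 4 * d * |S|) (hy2 : |y.1 1 0| ≤ 4 * d * |S|) :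
    |(z * y).1 1 0 - z.1 1 0| ≤ |z.1 1 0| / 4 + e / 4 ∧ |(z * y).1 0 0| ≤ 2 ∧ |(z * y).1 0 1| ≤ 2 ∧ |(z * y).1 1 1| ≤ 2 ∧ |z.1 0 0 - 1| ≤ |z.1 0 1| ∧ |S| ≤ 1 / 10 := by
  obtain ⟨m00, m01, m10, m11⟩ := DI4_mul z y
  obtain ⟨y00, y01, y10, y11⟩ := DI4_nm y
  have hNe : K1 * (N * ε) ≤ K1 * e := by
    rw [he]
    refine mul_le_mul_of_nonneg_left ?_ (by linarith)
    nlinarith
  have hεe : K1 * ε ≤ K1 * e := by
    rw [he]
    refine mul_le_mul_of_nonneg_left ?_ (by linarith)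
    nlinarith
  have he0 : 0 < e := by
    rw [he]
    positivity
  have hS1 : |S| ≤ 1 / 1000 + 1 / 20 := by linarith
  have hb1 : |z.1 0 1| ≤ 1 / 1000 + 1 / 4 := by linarith
  have hdet := DI4_det z
  rw [← hz] at hdet
  have hdiag := DI4_diag hz0 hdet
  have hdiag2 : |z.1 0 0 - 1| ≤ |z.1 0 1| := hdiag.trans (by nlinarith [abs_nonneg (z.1 0 1)])
  have hdiag3 : |z.1 0 0 - 1| ≤ 13 / 100 := hdiag.trans (by nlinarith [abs_nonneg (z.1 0 1), abs_nonneg (z.1 1 0)])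
  have ha := abs_le.1 hdiag3
  have hS0 := abs_nonneg S
  have hdK0 : d ≤ 1 / 1000 := by nlinarith
  have hy1' : |y.1 0 1| ≤ 1 / 1000 := hy1.trans (by nlinarith)
  have hy2' : |y.1 1 0| ≤ 1 / 1000 := hy2.trans (by nlinarith)
  have hy00 : |y.1 0 0 - 1| ≤ 2 * |S| := y00.trans hy
  have hy11 : |y.1 1 1 - 1| ≤ 2 * |S| := y11.trans hy
  have a00 : |y.1 0 0| ≤ 6 / 5 := by
    have := abs_le.1 (hy00.trans (by linarith : 2 * |S| ≤ 1 / 5))
    rw [abs_le]
    constructor <;> linarith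
  have a11 : |y.1 1 1| ≤ 6 / 5 := by
    have := abs_le.1 (hy11.trans (by linarith : 2 * |S| ≤ 1 / 5))
    rw [abs_le]
    constructor <;> linarith
  have z00 : |z.1 0 0| ≤ 6 / 5 := by
    rw [abs_le]
    constructor <;> linarith
  have z11 : |z.1 1 1| ≤ 6 / 5 := by rwa [← hz]
  refine ⟨?_, ?_, ?_, ?_, hdiag2, by linarith⟩
  · rw [m10]
    have e1 : z.1 1 0 * y.1 0 0 + z.1 1 1 * y.1 1 0 - z.1 1 0 = z.1 1 0 * (y.1 0 0 - 1) + z.1 1 1 * y.1 1 0 := by ring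
    rw [e1]
    refine (abs_add_le _ _).trans ?_
    rw [abs_mul, abs_mul]
    have e2 : |z.1 1 0| * |y.1 0 0 - 1| ≤ |z.1 1 0| * (102 / 1000) := by
      refine mul_le_mul_of_nonneg_left ?_ (abs_nonneg _)
      linarith
    have e3 : |z.1 1 1| * |y.1 1 0| ≤ 6 / 5 * (4 * d * |S|) := mul_le_mul z11 hy2 (abs_nonneg _) (by norm_num)
    have e4 : d * |S| ≤ d * (K1 * (N * ε)) + d * (|z.1 1 0| / 10) := by
      rw [← mul_add]
      exact mul_le_mul_of_nonneg_left hS hd.le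
    have e5 : d * (K1 * (N * ε)) ≤ 1 / 1000 * e := by
      have : d * (K1 * (N * ε)) = (d * K1) * (N * ε) := by ring
      rw [this]
      refine mul_le_mul hdK ?_ (by positivity) (by norm_num)
      rw [he]
      nlinarith
    have e6 : d * (|z.1 1 0| / 10) ≤ 1 / 1000 * (|z.1 1 0| / 10) := mul_le_mul_of_nonneg_right hdK0 (by positivity)
    have := abs_nonneg (z.1 1 0)
    nlinarith
  · rw [m00]
    refine (abs_add_le _ _).trans ?_
    rw [abs_mul, abs_mul]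
    have e1 : |z.1 0 0| * |y.1 0 0| ≤ 6 / 5 * (6 / 5) := mul_le_mul z00 a00 (abs_nonneg _) (by norm_num)
    have e2 : |z.1 0 1| * |y.1 1 0| ≤ 1 * (1 / 1000) := mul_le_mul (by linarith) hy2' (abs_nonneg _) (by norm_num)
    linarith
  · rw [m01]
    refine (abs_add_le _ _).trans ?_
    rw [abs_mul, abs_mul]
    have e1 : |z.1 0 0| * |y.1 0 1| ≤ 6 / 5 * (1 / 1000) := mul_le_mul z00 hy1' (abs_nonneg _) (by norm_num)
    have e2 : |z.1 0 1| * |y.1 1 1| ≤ 1 * (6 / 5) := mul_le_mul (by linarith) a11 (abs_nonneg _) (by norm_num)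
    linarith
  · rw [m11]
    refine (abs_add_le _ _).trans ?_
    rw [abs_mul, abs_mul]
    have e1 : |z.1 1 1| * |y.1 1 1| ≤ 6 / 5 * (6 / 5) := mul_le_mul z11 a11 (abs_nonneg _) (by norm_num)
    have e2 : |z.1 1 0| * |y.1 0 1| ≤ 1 * (1 / 1000) := mul_le_mul (by linarith) hy1' (abs_nonneg _) (by norm_num)
    linarith

theorem DI4_proof (hSH4 : SH4_stmt) (hRE4 : RE4_stmt) (hGL4 : GL4_stmt) : DI4_stmt := by
  obtain ⟨K1, hK1, hRE⟩ := hRE4
  obtain ⟨K2, hK2, hGL⟩ := hGL4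
  have hKK : 1 ≤ K1 ^ 2 * K2 := by nlinarith [one_le_pow₀ (n := 2) hK1]
  have hK12 : K1 ≤ K1 ^ 2 * K2 := by nlinarith
  have hK1K2 : K1 * K2 ≤ K1 ^ 2 * K2 := by nlinarith
  refine ⟨1000 * (K1 ^ 2 * K2), by linarith, ?_⟩
  intro d D hD hd hdK t ε u n w w' ht1 ht2 hε hKε hw hw' hEn h0 hu
  set K := 1000 * (K1 ^ 2 * K2) with hK
  have hKpos : 0 < K := by linarith
  have hdK' : d * K ≤ 1 := by
    rw [le_div_iff₀ hKpos] at hdK
    exact hdK
  have hdK1 : d * K1 ≤ 1 / 1000 := by nlinarith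
  have hd30 : d ≤ 1 / 30 := by nlinarith
  have hdK1' : d ≤ 1 / K1 := by
    rw [le_div_iff₀ (by linarith)]
    linarith
  set e := ((n : ℝ) + 1) * ε with he
  have hn0 : (0 : ℝ) ≤ n := Nat.cast_nonneg n
  have he0 : 0 < e := by positivity
  have hεe : ε ≤ e := by
    rw [he]
    nlinarith
  have hKe1 : K1 * e ≤ 1 / 1000 := by nlinarith
  have huK1 : |u| ≤ 1 / K1 := by
    refine hu.trans ?_
    exact one_div_le_one_div_of_le (by linarith) (by linarith)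
  have hKe1' : K1 * (((n : ℝ) + 1) * ε) ≤ 1 := by
    rw [← he]
    linarith
  obtain ⟨S, m, hmn, hS0, hinv, hstep, hend⟩ := hRE d D hD hd hdK1' t ε u n w w' ht1 ht2 hε hKe1' hw hw' hEn h0 huK1
  -- notation
  have hz0 : (zz D w w' (S 0) 0) = lM u := by
    unfold zz
    rw [hS0, hD.zero, h0]
  have hstar : ∀ j ≤ m, ∃ y : SL(2, ℝ), (w j).1⁻¹ * (w' j).1 = zz D w w' (S j) j * y ∧ nm y ≤ 2 * |S j| ∧
      |((w j).1⁻¹ * (w' j).1).1 1 0 - (zz D w w' (S j) j).1 1 0| ≤ |(zz D w w' (S j) j).1 1 0| / 4 + e / 4 ∧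
      |((w j).1⁻¹ * (w' j).1).1 0 0| ≤ 2 ∧ |((w j).1⁻¹ * (w' j).1).1 0 1| ≤ 2 ∧ |((w j).1⁻¹ * (w' j).1).1 1 1| ≤ 2 ∧
      |(zz D w w' (S j) j).1 0 0 - 1| ≤ |(zz D w w' (S j) j).1 0 1| := by
    intro j hj
    obtain ⟨i1, i2, i3, i4, i5⟩ := hinv j hj
    have hjn : (j : ℝ) ≤ n := by exact_mod_cast hj.trans hmn
    have i3' : |S j| ≤ K1 * ((n : ℝ) * ε) + |(zz D w w' (S j) j).1 1 0| / 10 := by
      refine i3.trans ?_
      have : K1 * ((j : ℝ) * ε) ≤ K1 * ((n : ℝ) * ε) := by gcongr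
      linarith
    have hSj : |S j| ≤ 1 := by
      have h5 : K1 * ((n : ℝ) * ε) ≤ K1 * e := by
        refine mul_le_mul_of_nonneg_left ?_ (by linarith)
        rw [he]
        nlinarith
      linarith
    obtain ⟨y, y1, y2, y3, y4⟩ := DI4_shift hSH4 d D hD hd hd30 w w' (S j) j (hw'.en j (hj.trans hmn)) hSj
    obtain ⟨s1, s2, s3, s4, s5, s6⟩ := DI4_star hK1 hd hdK1 hε hn0 he hKe1 i1 i2 i3' i4 i5 y2 y3 y4
    refine ⟨y, y1, y2, ?_, ?_, ?_, ?_, s5⟩
    · rw [y1]; exact s1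
    · rw [y1]; exact s2
    · rw [y1]; exact s3
    · rw [y1]; exact s4
  -- the cone from an exit on
  have hcone : 1 / K1 < |(zz D w w' (S m) m).1 1 0| → ∀ i, m ≤ i → i ≤ n →
      1 / (4 * K1) * |((w i).1⁻¹ * (w' i).1).1 0 0| ≤ |((w i).1⁻¹ * (w' i).1).1 1 0| ∧ 1 / (4 * K1) * |((w i).1⁻¹ * (w' i).1).1 0 1| ≤ |((w i).1⁻¹ * (w' i).1).1 1 0| ∧
      1 / (4 * K1) * |((w i).1⁻¹ * (w' i).1).1 1 1| ≤ |((w i).1⁻¹ * (w' i).1).1 1 0| ∧ 0 < ((w m).1⁻¹ * (w' m).1).1 1 0 * ((w i).1⁻¹ * (w' i).1).1 1 0 := by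
    intro hex i hi
    have hec : e ≤ |(zz D w w' (S m) m).1 1 0| := by
      refine le_trans ?_ hex.le
      rw [le_div_iff₀ (by linarith)]
      linarith
    obtain ⟨y, y1, y2, s1, s2, s3, s4, s5⟩ := hstar m le_rfl
    have hcne : (zz D w w' (S m) m).1 1 0 ≠ 0 := by
      intro h
      rw [h, abs_zero] at hec
      linarith
    obtain ⟨sg1, sg2⟩ := DI4_sign s1 hec hcne
    have hθ : 1 / (4 * K1) * 2 ≤ |((w m).1⁻¹ * (w' m).1).1 1 0| := by
      have : 1 / (4 * K1) * 2 = 1 / K1 / 2 := by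
        field_simp
        norm_num
      rw [this]
      linarith
    have hθ0 : 0 < 1 / (4 * K1) := by positivity
    induction i, hi using Nat.le_induction with
    | base =>
      intro _
      refine ⟨?_, ?_, ?_, ?_⟩
      · exact (mul_le_mul_of_nonneg_left s2 hθ0.le).trans hθ
      · exact (mul_le_mul_of_nonneg_left s3 hθ0.le).trans hθ
      · exact (mul_le_mul_of_nonneg_left s4 hθ0.le).trans hθ
      · have : ((w m).1⁻¹ * (w' m).1).1 1 0 ≠ 0 := by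
          intro h
          rw [h] at sg1
          simp at sg1
        exact mul_self_pos.2 this
    | succ i hmi ih =>
      intro hin
      obtain ⟨c1, c2, c3, c4⟩ := ih (by omega)
      have hi' : i < n := by omega
      have hθ1 : 1 / (4 * K1) ≤ 1 := by
        rw [div_le_one (by positivity)]
        linarith
      have hdθ : d ≤ 1 / (4 * K1) / K2 := by
        rw [div_div, le_div_iff₀ (by positivity)]
        nlinarith
      have hεθ : ε ≤ 1 / (4 * K1) / K2 := by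
        rw [div_div, le_div_iff₀ (by positivity)]
        have : ε * K ≤ 1 := by nlinarith
        nlinarith
      obtain ⟨g1, g2, g3, g4⟩ := hGL (1 / (4 * K1)) d D hθ0 hθ1 hD hd hdθ t ε (w i).2 (w' i).2 (w i).1 (w' i).1 (w (i + 1)).1 (w' (i + 1)).1
        ((w i).1⁻¹ * (w' i).1) ((w (i + 1)).1⁻¹ * (w' (i + 1)).1) ht1 ht2 hε.le hεθ (hw.en i hi'.le) (hw'.en i hi'.le) (hw.st i hi').1 (hw'.st i hi').1 rfl rfl c1 c2 c3
      refine ⟨g1, g2, g3, ?_⟩
      have h1 : 0 < (((w m).1⁻¹ * (w' m).1).1 1 0 * ((w i).1⁻¹ * (w' i).1).1 1 0) * (((w i).1⁻¹ * (w' i).1).1 1 0 * ((w (i + 1)).1⁻¹ * (w' (i + 1)).1).1 1 0) :=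
        mul_pos c4 g4
      have h2 : ((w i).1⁻¹ * (w' i).1).1 1 0 ≠ 0 := by
        intro h
        rw [h] at c4
        simp at c4
      have h3 : 0 < (((w i).1⁻¹ * (w' i).1).1 1 0) ^ 2 := by positivity
      have h4 : (((w m).1⁻¹ * (w' m).1).1 1 0 * ((w (i + 1)).1⁻¹ * (w' (i + 1)).1).1 1 0) * (((w i).1⁻¹ * (w' i).1).1 1 0) ^ 2 > 0 := by
        have e1 : (((w m).1⁻¹ * (w' m).1).1 1 0 * ((w (i + 1)).1⁻¹ * (w' (i + 1)).1).1 1 0) * (((w i).1⁻¹ * (w' i).1).1 1 0) ^ 2 =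
          (((w m).1⁻¹ * (w' m).1).1 1 0 * ((w i).1⁻¹ * (w' i).1).1 1 0) * (((w i).1⁻¹ * (w' i).1).1 1 0 * ((w (i + 1)).1⁻¹ * (w' (i + 1)).1).1 1 0) := by ring
        rw [e1]
        exact h1
      exact (pos_iff_pos_of_mul_pos h4).2 h3
  constructor
  · intro hx0
    have hnoex : ¬ (1 / K1 < |(zz D w w' (S m) m).1 1 0|) := by
      intro hex
      have := (hcone hex n hmn le_rfl).2.2.2
      rw [hx0, mul_zero] at this
      exact lt_irrefl _ this
    have hmn' : m = n := hend.resolve_right hnoex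
    subst hmn'
    obtain ⟨y, y1, y2, s1, s2, s3, s4, s5⟩ := hstar m le_rfl
    rw [hx0, zero_sub, abs_neg] at s1
    have hcn : |(zz D w w' (S m) m).1 1 0| ≤ e := by linarith [abs_nonneg ((zz D w w' (S m) m).1 1 0)]
    have hdown : ∀ k ≤ m, |(zz D w w' (S (m - k)) (m - k)).1 1 0| ≤ e + 3 * (K1 * ε) := by
      intro k
      induction k with
      | zero =>
        intro _
        rw [Nat.sub_zero]
        have : 0 < K1 * ε := by positivity
        linarith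
      | succ k ih =>
        intro hk
        have h1 := ih (by omega)
        have h2 := (hstep (m - (k + 1)) (by omega)).2.1
        have h3 : m - (k + 1) + 1 = m - k := by omega
        rw [h3] at h2
        have : 0 < K1 * ε := by positivity
        linarith
    intro i hi
    have hci : |(zz D w w' (S i) i).1 1 0| ≤ e + 3 * (K1 * ε) := by
      have := hdown (m - i) (by omega)
      rwa [Nat.sub_sub_self hi] at this
    obtain ⟨i1, i2, i3, i4, i5⟩ := hinv i hi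
    obtain ⟨y, y1, y2, s1, s2, s3, s4, s5⟩ := hstar i hi
    have hKε1 : K1 * ε ≤ K1 * e := mul_le_mul_of_nonneg_left hεe (by linarith)
    have heK : e ≤ K1 * e := by nlinarith
    have hci' : |(zz D w w' (S i) i).1 1 0| ≤ 4 * (K1 * e) := by linarith
    have hbi : |(zz D w w' (S i) i).1 0 1| ≤ 3 * (K1 * e) := by linarith
    have hSi : |S i| ≤ 2 * (K1 * e) := by
      have h5 : K1 * ((i : ℝ) * ε) ≤ K1 * e := by
        refine mul_le_mul_of_nonneg_left ?_ (by linarith)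
        rw [he]
        have : (i : ℝ) ≤ m := by exact_mod_cast hi
        nlinarith
      linarith
    have hnz : nm (zz D w w' (S i) i) ≤ 4 * (K1 * e) := by
      have hpos : 0 ≤ K1 * e := by positivity
      refine DI4_nm_le _ _ (s5.trans (by linarith)) (by linarith) hci' ?_
      rw [← i1]
      exact s5.trans (by linarith)
    have hny : nm y ≤ 4 * (K1 * e) := by linarith
    rw [y1]
    refine (VQE.NMB_proof.2.2.2.2.2.1 _ _).trans ?_
    have h0z := VQE.NMB_proof.1 (zz D w w' (S i) i)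
    have h0y := VQE.NMB_proof.1 y
    have hp : nm (zz D w w' (S i) i) * nm y ≤ 4 * (K1 * e) * (4 * (K1 * e)) := mul_le_mul hnz hny h0y (by positivity)
    have hp2 : 4 * (K1 * e) * (4 * (K1 * e)) ≤ K1 * e := by nlinarith [mul_pos (by linarith : 0 < K1) he0]
    have hfin : 10 * (K1 * e) ≤ K * e := by
      rw [hK]
      nlinarith
    have : 2 * nm (zz D w w' (S i) i) * nm y = 2 * (nm (zz D w w' (S i) i) * nm y) := by ring
    linarith
  · intro hKu
    have hup : ∀ j ≤ m, 0 < u * (zz D w w' (S j) j).1 1 0 ∧ |u| ≤ |(zz D w w' (S j) j).1 1 0| := by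
      intro j
      induction j with
      | zero =>
        intro _
        rw [hz0]
        have h1 : (lM u).1 1 0 = u := by simp [lM]
        rw [h1]
        have hu0 : u ≠ 0 := by
          intro h
          rw [h, abs_zero] at hKu
          nlinarith
        exact ⟨mul_self_pos.2 hu0, le_rfl⟩
      | succ j ih =>
        intro hj
        obtain ⟨h1, h2⟩ := ih (by omega)
        obtain ⟨_, _, h3⟩ := hstep j (by omega)
        have hKε1 : K1 * ε ≤ K * e := by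
          rw [hK]
          nlinarith [mul_pos (by linarith : 0 < K1) hε]
        obtain ⟨h4, h5⟩ := h3 (by linarith)
        refine ⟨?_, h2.trans h5⟩
        have h6 : 0 < (u * (zz D w w' (S j) j).1 1 0) * ((zz D w w' (S j) j).1 1 0 * (zz D w w' (S (j + 1)) (j + 1)).1 1 0) := mul_pos h1 h4
        have h7 : (zz D w w' (S j) j).1 1 0 ≠ 0 := by
          intro h
          rw [h] at h1
          simp at h1
        have h8 : 0 < ((zz D w w' (S j) j).1 1 0) ^ 2 := by positivity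
        have h9 : (u * (zz D w w' (S (j + 1)) (j + 1)).1 1 0) * ((zz D w w' (S j) j).1 1 0) ^ 2 > 0 := by
          have e1 : (u * (zz D w w' (S (j + 1)) (j + 1)).1 1 0) * ((zz D w w' (S j) j).1 1 0) ^ 2 =
            (u * (zz D w w' (S j) j).1 1 0) * ((zz D w w' (S j) j).1 1 0 * (zz D w w' (S (j + 1)) (j + 1)).1 1 0) := by ring
          rw [e1]
          exact h6
        exact (pos_iff_pos_of_mul_pos h9).2 h8
    obtain ⟨u1, u2⟩ := hup m le_rfl
    obtain ⟨y, y1, y2, s1, s2, s3, s4, s5⟩ := hstar m le_rfl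
    have hcne : (zz D w w' (S m) m).1 1 0 ≠ 0 := by
      intro h
      rw [h] at u1
      simp at u1
    have hec : e ≤ |(zz D w w' (S m) m).1 1 0| := by
      have : e ≤ K * e := by nlinarith
      linarith
    obtain ⟨sg1, sg2⟩ := DI4_sign s1 hec hcne
    have hux : 0 < u * ((w m).1⁻¹ * (w' m).1).1 1 0 := by
      have h6 := mul_pos u1 sg1
      have h8 : 0 < ((zz D w w' (S m) m).1 1 0) ^ 2 := by positivity
      have h9 : (u * ((w m).1⁻¹ * (w' m).1).1 1 0) * ((zz D w w' (S m) m).1 1 0) ^ 2 > 0 := by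
        have e1 : (u * ((w m).1⁻¹ * (w' m).1).1 1 0) * ((zz D w w' (S m) m).1 1 0) ^ 2 =
          (u * (zz D w w' (S m) m).1 1 0) * (((w m).1⁻¹ * (w' m).1).1 1 0 * (zz D w w' (S m) m).1 1 0) := by ring
        rw [e1]
        exact h6
      exact (pos_iff_pos_of_mul_pos h9).2 h8
    rcases hend with hmn' | hex
    · rwa [hmn'] at hux
    · have h4 := (hcone hex n hmn le_rfl).2.2.2
      have h6 := mul_pos hux h4
      have h7 : ((w m).1⁻¹ * (w' m).1).1 1 0 ≠ 0 := by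
        intro h
        rw [h] at h4
        simp at h4
      have h8 : 0 < (((w m).1⁻¹ * (w' m).1).1 1 0) ^ 2 := by positivity
      have h9 : (u * ((w n).1⁻¹ * (w' n).1).1 1 0) * (((w m).1⁻¹ * (w' m).1).1 1 0) ^ 2 > 0 := by
        have e1 : (u * ((w n).1⁻¹ * (w' n).1).1 1 0) * (((w m).1⁻¹ * (w' m).1).1 1 0) ^ 2 =
          (u * ((w m).1⁻¹ * (w' m).1).1 1 0) * (((w m).1⁻¹ * (w' m).1).1 1 0 * ((w n).1⁻¹ * (w' n).1).1 1 0) := by ring
        rw [e1]
        exact h6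
      exact (pos_iff_pos_of_mul_pos h9).2 h8

end

end Pool.Agent.VQ
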