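import Pool.Agent.helper84.VQ.Spec4a

/-!
# Project VQ (MP_07c750_an), block 4b: domination of one big step by an integral over a curve; rows `vq:XX4`

RULES as in Spec4a: row `vq:XX4`: file `Pool/Agent/<seat>/VQ/XX4.lean`, `import Pool.Agent.helper84.VQ.Spec4b`, `set_option autoImplicit false`, namespace `Pool.Agent.VQ`, `open Pool.Agent.RS`, `open Pool.Agent.VQE (nm)`, auxiliary lemmas prefixed `XX4_`,
theorem `XX4_proof (h..) : XX4_stmt`. No `convert`, `congr!`, `native_decide`, no double quotes, no `private`. `VQE.HAL_stmt` (Haar measure at most Hausdorff measure of the matrices, on compact sets): `Pool/Agent/helper47/VQE/HAL.lean`; `VQE.NMB_proof`: `Pool/Agent/helper14/VQE/NMB.lean`.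
-/

open scoped MatrixGroups ContDiff Topology UpperHalfPlane ComplexConjugate ENNReal
open UpperHalfPlane MeasureTheory Filter Set

namespace Pool.Agent.VQ

open Pool.Agent.RS
open Pool.Agent.VQE (nm)

noncomputable section

/-- the map `z ↦ y (z 0) nM (z 1) aM (z 2)` -/
def Th3 (y : ℝ → SL(2, ℝ)) (z : Fin 3 → ℝ) : SL(2, ℝ) := y (z 0) * nM (z 1) * aM (z 2)

/-- short curves through `1` with the Lipschitz constant `c` on `[-r, r]` -/
structure LC (c r : ℝ) (y : ℝ → SL(2, ℝ)) : Prop where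
  cont : Continuous y
  zero : y 0 = 1
  c0 : 0 < c
  r0 : 0 < r
  r1 : r ≤ 1 / 10
  cr : c * r ≤ 1 / 10
  lip : ∀ u ∈ Icc (-r) r, ∀ u' ∈ Icc (-r) r, nm ((y u)⁻¹ * y u') ≤ c * |u - u'|

/-- **Row DA4** (medium; from VQE.NMB, VQE.HAL). `nm (y u) ≤ c|u| ≤ 1/10`. For `z, z'` in the box: `Θz⁻¹ Θz' = (nM z1 aM z2)⁻¹ (y z0)⁻¹ (y z0') (nM z1' aM z2')`, so (NMB, last part, or directly with the entries) `dist (mt Θz) (mt Θz') ≤ K0 (c|z0 - z0'| + |z1 - z1'| + |z2 - z2'|)`. With the scaling `σ z = (c z0, z1, z2)`: `mt ∘ Θ ∘ σ⁻¹` is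
`3K0`-Lipschitz on `σ '' S` (`LipschitzOnWith.hausdorffMeasure_image_le`): `μH[3] (mt '' (Θ '' S)) ≤ (3K0)³ μH[3] (σ '' S) = (3K0)³ vol (σ '' S)` (`hausdorffMeasure_pi_real`) `= (3K0)³ c vol S` (`Measure.addHaar_image_linearMap` or `Real.map_matrix_volume_pi_eq_smul_volume_pi`, diagonal matrix). HAL for the compact set `{g | nm g ≤ 1}` and the compact
(so measurable) set `Θ '' S`. -/
def DA4_stmt : Prop := ∃ K : ℝ, 1 ≤ K ∧ ∀ (c r : ℝ) (y : ℝ → SL(2, ℝ)), LC c r y → ∀ S : Set (Fin 3 → ℝ), IsCompact S → S ⊆ Icc (fun _ => -r) (fun _ => r) →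
  mG (Th3 y '' S) ≤ ENNReal.ofReal (K * c) * volume S

/-- **Row DB4** (medium; from DA4, `RS.A_GLI`/`RS.A_GMG` (left invariance of `mG`)). `g = 1` by left invariance (replace `V` by `V (g * ·)`). Let `Q` be the box in `Fin 3 → ℝ`, `ν = mG.restrict (Θ '' Q)`, `λ = ofReal (K c) • (volume.restrict Q).map Θ` (finite Borel measures). For closed `T`: `Θ '' Q ∩ T = Θ '' (Q ∩ Θ⁻¹ T)` and `Q ∩ Θ⁻¹ T` is compact,
so `ν T ≤ λ T` (DA4). `ν` is a finite Borel measure on a metrizable space, so weakly regular (`MeasurableSet.exists_isClosed_lt_add` / `MeasurableSet.measure_eq_iSup_isClosed_of_ne_top`; if an instance is missing for `SL(2, ℝ)`, push forward with the closed embedding into the matrices `Fin 2 → Fin 2 → ℝ`): `ν ≤ λ`, and `∫⁻ V dν ≤ ∫⁻ V dλ = ofReal (K c) ∫⁻_Q V ∘ Θ`.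
Coordinates: `(Fin 3 → ℝ) ≃ ℝ × ℝ × ℝ` preserves the volume (`volume_preserving_piFinSuccAbove`, `volume_preserving_finTwoArrow`). -/
def DB4_stmt : Prop := ∃ K : ℝ, 1 ≤ K ∧ ∀ (c r : ℝ) (y : ℝ → SL(2, ℝ)), LC c r y → ∀ (g : SL(2, ℝ)) (V : SL(2, ℝ) → ENNReal), Measurable V →
  ∫⁻ h in {h | ∃ u ∈ Icc (-r) r, ∃ x ∈ Icc (-r) r, ∃ s ∈ Icc (-r) r, h = g * y u * nM x * aM s}, V h ∂mG ≤
    ENNReal.ofReal (K * c) * ∫⁻ o in Icc (-r) r ×ˢ Icc (-r) r ×ˢ Icc (-r) r, V (g * y o.1 * nM o.2.1 * aM o.2.2)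

end

end Pool.Agent.VQ
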