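import Pool.Agent.helper84.VQ.Spec4a
import Pool.Agent.helper84.VQ.Spec4b
import Pool.Agent.helper84.VQ.DI4
import Pool.Agent.helper90.VQ.FE4
import Pool.Agent.helper43.VQ.PD4
import Pool.Agent.helper77.VQ.GR4
import Pool.Agent.helper43.VQ.SH4
import Pool.Agent.helper25.VQ.SA4
import Pool.Agent.helper78.VQ.SB4
import Pool.Agent.helper77.VQ.SP4
import Pool.Agent.helper29.VQ.GL4
import Pool.Agent.helper40.VQ.RE4
import Pool.Agent.helper33.VQ.CA4
import Pool.Agent.helper77.VQ.PO4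
import Pool.Agent.helper89.VQ.CH4
import Pool.Agent.helper67.VQ.AR4
import Pool.Agent.helper23.VQ.I54
import Pool.Agent.helper33.VQ.I64
import Pool.Agent.helper44.VQ.SD4
import Pool.Agent.helper96.VQ.DA4
import Pool.Agent.helper25.VQ.DB4
import Pool.Agent.helper47.VQE.HAL
import Pool.Agent.helper84.VQ.BX4
import Pool.Agent.helper59.VQ.CU4
import Pool.Agent.helper61.VQ.DM4
import Pool.Agent.helper90.VQ.RJT
import Pool.Agent.helper15.VQ.RSL
import Pool.Agent.helper94.VQ.RDR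

/-!
# Project VQ (MP_07c750_an), blocks 4a and 4b: the interface statements `I5_stmt`, `I6_stmt`, `DOM_stmt`
-/

set_option autoImplicit false

namespace Pool.Agent.VQ

theorem A_FE4 (hFLB : FLB_stmt) : FE4_stmt := FE4_proof hFLB
theorem A_PD4 : PD4_stmt := PD4_proof
theorem A_GR4 : GR4_stmt := GR4_proof A_PD4
theorem A_SH4 : SH4_stmt := SH4_proof
theorem A_SA4 : SA4_stmt := SA4_proof A_PD4 A_GR4
theorem A_SB4 : SB4_stmt := SB4_proof A_SH4
theorem A_SP4 : SP4_stmt := SP4_proof A_GR4 A_SA4 A_SB4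
theorem A_GL4 : GL4_stmt := GL4_proof A_PD4
theorem A_RE4 : RE4_stmt := RE4_proof A_SP4
theorem A_DI4 : DI4_stmt := DI4_proof A_SH4 A_RE4 A_GL4
theorem A_CA4 : CA4_stmt := CA4_proof
theorem A_PO4 : PO4_stmt := PO4_proof A_CA4
theorem A_CH4 : CH4_stmt := CH4_proof A_CA4 A_PO4
theorem A_AR4 : AR4_stmt := AR4_proof
theorem A_DA4 : DA4_stmt := DA4_proof VQE.HAL_proof
theorem A_DB4 : DB4_stmt := DB4_proof A_DA4
theorem A_BX4 : BX4_stmt := BX4_proof

/-- **(I6)** -/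
theorem A_I6 (hFLB : FLB_stmt) : I6_stmt := I64_proof (A_FE4 hFLB) A_GR4 A_AR4

/-- **(I5)** -/
theorem A_I5 (hFLB : FLB_stmt) : I5_stmt := I54_proof (A_FE4 hFLB) A_DI4 A_CH4 A_AR4 A_BX4

/-- shadowing -/
theorem A_SD4 (hFLB : FLB_stmt) : SD4_stmt := SD4_proof (A_FE4 hFLB) A_DI4 A_PO4 A_AR4

/-- the curve of one big step -/
theorem A_CU4 (hRFF : RFF_stmt) (hRGF : RGF_stmt) (hVYU : VYU_stmt) : CU4_stmt := CU4_proof hRFF RJT_proof hRGF RSL_proof RDR_proof hVYU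

/-- **domination** -/
theorem A_DOM (hFLB : FLB_stmt) (hRFF : RFF_stmt) (hRGF : RGF_stmt) (hVYU : VYU_stmt) (hIAM : IAM_stmt) (hI4 : I4_stmt) : DOM_stmt :=
  DM4_proof (A_CU4 hRFF hRGF hVYU) A_DB4 (A_SD4 hFLB) hIAM hI4

end Pool.Agent.VQ
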