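import Pool.Agent.helper84.VQ.All
import Pool.Agent.helper80.VQ.AllFL
import Pool.Agent.helper93.VQ.All
import Pool.Agent.helper66.VQ.VYU
import Pool.Agent.helper39.VQ.VYA
import Pool.Agent.helper17.VQ.VYC
import Pool.Agent.helper2.VQ.VYV
import Pool.Agent.helper73.VQ.VDN

/-!
# Project VQ (MP_07c750_an), blocks 4a and 4b: `I5_stmt`, `I6_stmt`, `SD4_stmt` without hypotheses, `DOM_stmt` from the interface statements `IAM_stmt`, `I4_stmt` of blocks 1 and 2
-/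

set_option autoImplicit false

namespace Pool.Agent.VQ

/-- **(I5)** -/
theorem G_I5 : I5_stmt := A_I5 F_FLB

/-- **(I6)** -/
theorem G_I6 : I6_stmt := A_I6 F_FLB

theorem G_SD4 : SD4_stmt := A_SD4 F_FLB

theorem G_VUB : VUB_stmt := VUB_proof VCD_proof
theorem G_VYA : VYA_stmt := VYA_proof G_VUB
theorem G_VYC : VYC_stmt := VYC_proof G_VYA G_VUB
theorem G_VYV : VYV_stmt := VYV_proof (VDN_proof VCD_proof) G_VUB
theorem G_VYU : VYU_stmt := VYU_proof G_VYC G_VYV G_VUB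

/-- **domination** -/
theorem G_DOM (hIAM : IAM_stmt) (hI4 : I4_stmt) : DOM_stmt := A_DOM F_FLB (B4_RFF F_FLB F_FLC) B4_RGF G_VYU hIAM hI4

/-- **(I7)** from the last row RI7 (hypothesis until it has landed) -/
theorem G_I7 (hRI7 : RLL_stmt → RIA_stmt → RIB_stmt → RMS_stmt → RJT_stmt → RGF_stmt → RFF_stmt → RI7_stmt)
    (hIAM : IAM_stmt) (hI4 : I4_stmt) : I7_stmt :=
  B4_I7 hRI7 F_FLB F_FLC (G_DOM hIAM hI4) G_SD4 hI4

end Pool.Agent.VQ
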