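import Pool.Agent.helper84.VQ.Spec4b
import Pool.Agent.helper93.VQ.Spec4c
import Pool.Agent.helper74.VQ.SpecE

/-!
# Project VQ (MP_07c750_an), block 4b, end: the domination (rows `vq:CU4`, `vq:DM4`)

RULES as in Spec4a, Spec4b, Spec4c. `import Pool.Agent.helper84.VQ.Spec4d`.
-/

open scoped MatrixGroups ContDiff Topology UpperHalfPlane ComplexConjugate ENNReal
open UpperHalfPlane MeasureTheory Filter Set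

namespace Pool.Agent.VQ

open Pool.Agent.RS
open Pool.Agent.VQE (nm)

noncomputable section

/-- **Row CU4** (the curve `u ↦ fl τ (g lM u)`; medium; from RFF, RJT, RGF, RSL, RDR, VYU). `K, δ1` of RFF, `δ0 = min δ1 (1/(10000 K))` (so `δ0 ≤ 1/10`), `d = K δ0`, `C_V` of VYU. `R0` (`Adm 10 A`: `0 < z2 ≤ 1/10`, `0 < A.m e3 ≤ 1/20`): `τ = A.tu R ≥ 2`, `2 R^(-1/4) ≤ d/4`, `r2 ≤ 1/10`, `e^(1.01 τ) ≤ R^(51/1000)`, so `2 e^(1.01τ) r2 ≤ 1/100`.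
`u ↦ p.1 lM u` is in `RG (1/2)` (RJT (4)), so in `RG 2` (RJT (3)); RGF: `X, Y, Z, L`; at `t = τ ≥ 2` the curve is in `RG (1/2)` and in `CC 2`. For `v ≤ v'` in `[-r2, r2]`: `L τ v' - L τ v ≤ e^(1.01τ)(v' - v) ≤ 1/100`; `di`: `Z τ v ≤ e^(1/200) Z τ 0 ≤ (101/100) Z τ 0`; so (`dl`, mean value) `L τ v' - L τ v ≤ (101/100) Z τ 0 (v' - v)`, and by RDR
`nm ((γ v)⁻¹ γ v') ≤ (11/10)(101/100) Z τ 0 (v' - v)`; `nm (a⁻¹) = nm a` (VQE.NMB) for `v' < v`. `c = 2 Z τ 0`. `Z τ 0 ≤ e^(1.01τ)` (RSL, `c 0 = 1`), so `c r2 ≤ 1/10`. VYU: `|Y τ 0 + Z τ 0| ≤ C_V ‖det‖`, `|Y τ 0| ≤ Z τ 0/50` (cone of `CC 2`): `c ≤ 3 C_V ‖det‖`. Continuity: `Cv.der` at `t = τ` (the entries are differentiable). -/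
def CU4_stmt : Prop := ∀ Γ : Subgroup SL(2, ℝ), QU.SurfaceGroup Γ → ∃ δ0 C : ℝ, 0 < δ0 ∧ 1 ≤ C ∧ ∀ A : Prm, Adm 10 A → ∃ R0 : ℝ, 1 ≤ R0 ∧ ∀ (B : ℕ → ℝ) (R : ℝ) (D : Dyn), R0 ≤ R → OKD Γ δ0 B D →
  ∀ p : SL(2, ℝ) × ℝ, p.2 ∈ Wi (3 / 2) R → ∃ c : ℝ, c ≤ C * ‖(D.Y p.2 (A.tu R) p.1).det‖ ∧
    LC c (r2 A R) (fun u => (D.fl p.2 (A.tu R) p.1)⁻¹ * D.fl p.2 (A.tu R) (p.1 * lM u))

/-- **Row DM4** = `DOM_stmt` of Spec4c (medium; from CU4, DB4, SD4, IAM (SpecE of helper74), I4 (Spec3i: `ub ≠ 0 → Reach`), RS.A_GLI). `δ0` = minimum (`OKD` is monotone in `δ`). `ρ = R^(-1/2 + 3 z2/2)`. `ub p q ≠ 0`: `Reach`, so by SD4 `q.1 = fl τ (p.1 lM u) x`, `x₁₀ = 0`, `nm x ≤ ρ` or `nm (-x) ≤ ρ`: `x = ± nM x1 aM s1` with `s1 = 2 log |x₀₀|`, `x1 = x₀₁/x₁₁`, `|x1|, |s1| ≤ 3ρ ≤ r2`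
(`R ≥ R0`), `|q.2 - p.2| ≤ ρ ≤ r2`. With `H = {fl τ (p.1 lM u) nM x1 aM s1 : |u|, |x1|, |s1| ≤ r2}` (compact) and `I = [p.2 - r2, p.2 + r2]`: `q ∈ H × I` or `q ∈ ngM H × I`. IAM: `‖ub p q‖² ≤ R^(4 + C' z2)/‖det‖` (`‖det‖ > 0` by CU4). Tonelli: `∫_(H × I) V = ∫_(E' ∈ I) ∫_(h ∈ H) V(h, E') ≤ ∫_(E' ∈ I) ofReal (K c) ∫_(box) V(fl τ (p.1 lM u) nM x aM s, E')` (DB4 with `g = fl τ p.1`),
`E' = p.2 + ε` (translation), Tonelli again: `= ofReal (K c) ∫_(bx) V (Phi ..)`. For `ngM H`: left invariance of `mG` (`ngM`), `V(ngM ·, E')`. `mW R ≤ mG × volume`. In total the constant is `R^(4 + C' z2) K c/‖det‖ ≤ R^(4 + C' z2) K C ≤ R^(4 + (C' + 1) z2)`. -/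
def DM4_stmt : Prop := DOM_stmt

end

end Pool.Agent.VQ
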